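import Mathlib
import Pool.Agent.X90.DI.Span

/-!
# MP_301213_nt: Hoffman's basis and the multiple zeta values with one large argument

The first argument belongs to the largest variable. Fix `W` and consider the multiple zeta values of large weight `k`
with an argument at least `k - W`, `ζ(q, k - |q| - |r|, r)` with `q` admissible (or empty) and `|q| + |r| ≤ W`. Among
them are the values `ζ(h, k - |h| - |r|, r)` with a word `h` in the letters `2, 3` in front of the large argument; here
are their properties.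

Spanning. If the Hoffman values span `Z_n` for `n ≤ W` (Brown's theorem), then every value `ζ(q, k - |q| - |r|, r)` is a
linear combination of the values `ζ(h, k - |h| - |r'|, r')`, with rational coefficients that do not depend on `k`.

Independence. The Hoffman values of weight `n` are linearly independent for all `n ≤ W` (this is Q1 in the weights at
most `W`) if and only if for almost all `k` there is no relation with integer coefficients at most `C ^ k` between the
values `ζ(h, k - |h| - |r|, r)`. In general these relations span, for almost all `k`, a space of dimension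
`∑_{n ≤ W} 2 ^ (W - n) (h_n - dim H_n)`, where `h_n` is the number of the Hoffman words of weight `n` and `H_n` the span of
their values. Almost all `k`: all but a bounded number of the `k` in `[N, κ N]`, for all large `N`.

For `W = 4` both hypotheses are satisfied: the `28` values of weight `k` with an argument at least `k - 4` are linear
combinations of the `23` values `ζ(h, k - |h| - |r|, r)`, `h` one of `(), (2), (3), (2, 2)`, with coefficients that do
not depend on `k`, and for almost all `k` there is no relation with coefficients at most `C ^ k` between these.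

The theorem is proved for every set `S` of indices that contains the initial segments of its elements, in place of the
set of the Hoffman words.

Proof (`Pool/Agent/X90/DE`, `DI`): a word with a fixed part `q` is expanded with the stuffle product into
`∑ ± ζ(p) ζ(v)` with initial segments `p` of `q` and words `v` that begin with the large letter; `ζ(p)` is a combination of
values `ζ(h)`, and in the stuffle product of `h` and `v` the large letter comes after an initial segment of `h`. The
relations are determined with the elimination of `Pool/Agent/X90/DD/Lin`.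
-/

set_option autoImplicit false

namespace Pool.Agent.Results.MP_301213_nt.HoffmanPrefixBasis

/-- `trunc [s_1, ..., s_r] m` is the sum of `∏ n_i ^ (-s_i)` over `m > n_1 > ... > n_r ≥ 1` -/
noncomputable def trunc : List ℕ → ℕ → ℝ
  | [], _ => 1
  | s :: l, m => ∑ j ∈ Finset.Ico 1 m, trunc l j / (j : ℝ) ^ s

/-- the multiple zeta value `ζ(s_1, ..., s_r)`, the sum of `∏ n_i ^ (-s_i)` over
`n_1 > ... > n_r ≥ 1`; `ζ() = 1` -/
noncomputable def mzv : List ℕ → ℝ
  | [] => 1
  | s :: l => ∑' m : ℕ, trunc l (m + 1) / ((m + 1 : ℕ) : ℝ) ^ s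

/-- admissible indices: the empty index and `(s_1, ..., s_r)` with `s_1 ≥ 2` and all `s_i ≥ 1` -/
def Admissible : List ℕ → Prop
  | [] => True
  | s :: l => 2 ≤ s ∧ ∀ t ∈ l, 1 ≤ t

/-- `S` consists of admissible indices and contains the initial segments of its elements -/
def PrefixClosed (S : Set (List ℕ)) : Prop :=
  (∀ q ∈ S, Admissible q) ∧ ∀ q ∈ S, ∀ p, p <+: q → p ∈ S

/-- the words in the letters `2` and `3` -/
def Hoffman : Set (List ℕ) := {q | ∀ t ∈ q, t = 2 ∨ t = 3}

/-- the elements of `S` of weight `n` -/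
def level (S : Set (List ℕ)) (n : ℕ) : Set (List ℕ) := {q | q ∈ S ∧ q.sum = n}

/-- the indices `(q, a, r)` of weight `k` with `q` in `S` and `a ≥ k - W` -/
def LargeWords (S : Set (List ℕ)) (W k : ℕ) : Set (List ℕ) :=
  {w | ∃ (q : List ℕ) (a : ℕ) (r : List ℕ), w = q ++ a :: r ∧ q ∈ S ∧ (∀ t ∈ r, 1 ≤ t) ∧
    w.sum = k ∧ k ≤ a + W}

/-- a relation `∑ c_w ζ(w) = 0` with integers `c_w` of absolute value at most `H` between the values
of `LargeWords S W k` -/
def IsRelation (S : Set (List ℕ)) (W k : ℕ) (H : ℝ) (c : List ℕ →₀ ℚ) : Prop :=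
  (∀ w ∈ c.support, w ∈ LargeWords S W k) ∧
    (∀ w, ∃ z : ℤ, c w = z ∧ |(z : ℝ)| ≤ H) ∧ c.sum (fun w x => (x : ℝ) * mzv w) = 0

/-- the `ℚ`-space spanned by these relations -/
noncomputable def relationSpace (S : Set (List ℕ)) (W k : ℕ) (H : ℝ) : Submodule ℚ (List ℕ →₀ ℚ) :=
  Submodule.span ℚ {c | IsRelation S W k H c}

/-- for all `κ` there is `K` such that for all `C > 1`, all sufficiently large `N` and all but at most
`K` of the `k ∈ [N, κ N]` the space of the relations of height `C ^ k` has dimension `D` -/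
def AlmostDimension (S : Set (List ℕ)) (W D : ℕ) : Prop :=
  ∀ κ : ℕ, ∃ K : ℕ, ∀ C : ℝ, 1 < C → ∃ N0 : ℕ, ∀ N : ℕ, N0 ≤ N →
    {k : ℕ | (N ≤ k ∧ k ≤ κ * N) ∧
      Module.finrank ℚ (relationSpace S W k (C ^ k)) ≠ D}.ncard ≤ K

/-- for all `κ` there is `K` such that for all `C > 1`, all sufficiently large `N` and all but at most
`K` of the `k ∈ [N, κ N]` there is no nonzero relation of height `C ^ k` -/
def AlmostNoRelation (S : Set (List ℕ)) (W : ℕ) : Prop :=
  ∀ κ : ℕ, ∃ K : ℕ, ∀ C : ℝ, 1 < C → ∃ N0 : ℕ, ∀ N : ℕ, N0 ≤ N →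
    {k : ℕ | (N ≤ k ∧ k ≤ κ * N) ∧ ∃ c, c ≠ 0 ∧ IsRelation S W k (C ^ k) c}.ncard ≤ K

/-- for all `n ≤ W` the values of `S` of weight `n` are linearly independent -/
def IndependentUpTo (S : Set (List ℕ)) (W : ℕ) : Prop :=
  ∀ n ≤ W, LinearIndependent ℚ fun q : level S n => mzv q.1

/-- for all `n ≤ W` the values of `S` of weight `n` span all values of weight `n` -/
def SpansUpTo (S : Set (List ℕ)) (W : ℕ) : Prop :=
  ∀ n ≤ W, ∀ p, Admissible p → p.sum = n → mzv p ∈ Submodule.span ℚ (mzv '' level S n)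

/-- every value `ζ(q, k - |q| - |r|, r)`, `|q| + |r| ≤ W`, is a linear combination of such values with
`q` in `S`, with coefficients that do not depend on `k` -/
def SpansUniformly (S : Set (List ℕ)) (W : ℕ) : Prop :=
  ∀ q r : List ℕ, Admissible q → (∀ t ∈ r, 1 ≤ t) → q.sum + r.sum ≤ W →
    ∃ c : (List ℕ × List ℕ) →₀ ℚ,
      (∀ x ∈ c.support, x.1 ∈ S ∧ (∀ t ∈ x.2, 1 ≤ t) ∧ x.1.sum + x.2.sum ≤ W) ∧
      ∀ k, W + 2 ≤ k → mzv (q ++ (k - q.sum - r.sum) :: r) =
        c.sum fun x a => (a : ℝ) * mzv (x.1 ++ (k - x.1.sum - x.2.sum) :: x.2)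

open Finset
open Pool.Agent.X90.DB (Ad)
open Pool.Agent.X90.DI

theorem trunc_eq : ∀ l m, trunc l m = Pool.Agent.Y760.ZG.hr l m := by
  intro l
  induction l with
  | nil => intro m; rw [trunc, Pool.Agent.Y760.ZG.hr]
  | cons s l ih =>
    intro m
    rw [trunc, Pool.Agent.Y760.ZG.hr]
    exact Finset.sum_congr rfl fun j _ => by rw [ih]

theorem mzv_eq : ∀ l, mzv l = Pool.Agent.Y760.ZG.mz l := by
  intro l
  cases l with
  | nil => rw [mzv, Pool.Agent.Y760.ZG.mz]
  | cons s l =>
    rw [mzv, Pool.Agent.Y760.ZG.mz]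
    exact tsum_congr fun k => by rw [trunc_eq]

theorem adm_iff : ∀ u, Admissible u ↔ (u = [] ∨ Ad u) := by
  intro u
  cases u with
  | nil => exact ⟨fun _ => Or.inl rfl, fun _ => trivial⟩
  | cons a l => exact ⟨fun h => Or.inr h, fun h => h.resolve_left (List.cons_ne_nil _ _)⟩

theorem level_eq {S : Set (List ℕ)} (hS : PrefixClosed S) (n : ℕ) :
    level S n = (adS (· ∈ S) n : Set (List ℕ)) := by
  ext q
  rw [Finset.mem_coe, mem_adS, level, Set.mem_ofPred_eq]
  constructor
  · rintro ⟨h1, h2⟩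
    exact ⟨⟨(adm_iff q).1 (hS.1 q h1), h2⟩, h1⟩
  · rintro ⟨⟨-, h2⟩, h1⟩
    exact ⟨h1, h2⟩

theorem span_eq {S : Set (List ℕ)} (hS : PrefixClosed S) (n : ℕ) :
    Submodule.span ℚ (mzv '' level S n) = WSS (· ∈ S) n := by
  classical
  rw [level_eq hS, WSS_eq, funext mzv_eq, coe_image]

theorem large_iff {S : Set (List ℕ)} (hS : PrefixClosed S) (W k : ℕ) (w : List ℕ) :
    w ∈ LargeWords S W k ↔ FamS (· ∈ S) W k w := by
  rw [LargeWords, Set.mem_ofPred_eq, FamS]
  constructor
  · rintro ⟨q, a, r, h1, h2, h3⟩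
    exact ⟨q, a, r, h1, ⟨(adm_iff q).1 (hS.1 q h2), h2⟩, h3⟩
  · rintro ⟨q, a, r, h1, ⟨-, h2⟩, h3⟩
    exact ⟨q, a, r, h1, h2, h3⟩

theorem rel_eq {S : Set (List ℕ)} (hS : PrefixClosed S) (W k : ℕ) (H : ℝ) :
    relationSpace S W k H = relSS (· ∈ S) W k H := by
  rw [relationSpace, relSS]
  simp only [IsRelation, mzv_eq, large_iff hS]

theorem finrank_le {S : Set (List ℕ)} (n : ℕ) :
    Module.finrank ℚ (WSS (· ∈ S) n) ≤ (adS (· ∈ S) n).card := by
  classical
  rw [WSS_eq]
  exact (finrank_span_finset_le_card _).trans card_image_le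

theorem almost {S : Set (List ℕ)} (hS : PrefixClosed S) (W : ℕ) : AlmostDimension S W
    (∑ n ∈ range (W + 1), 2 ^ (W - n) *
      ((level S n).ncard - Module.finrank ℚ (Submodule.span ℚ (mzv '' level S n)))) := by
  classical
  intro κ
  obtain ⟨K, hK⟩ := mainS (· ∈ S) hS.2 W κ
  refine ⟨K, fun C hC => ?_⟩
  obtain ⟨N0, hN0⟩ := hK C hC
  refine ⟨N0, fun N hN => ?_⟩
  have hfin : {k : ℕ | (N ≤ k ∧ k ≤ κ * N) ∧ Module.finrank ℚ (relationSpace S W k (C ^ k)) ≠
      ∑ n ∈ range (W + 1), 2 ^ (W - n) *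
        ((level S n).ncard - Module.finrank ℚ (Submodule.span ℚ (mzv '' level S n)))}.Finite := by
    refine (Finset.Icc N (κ * N)).finite_toSet.subset ?_
    rintro s ⟨hs, -⟩
    exact Finset.mem_coe.2 (Finset.mem_Icc.2 hs)
  rw [Set.ncard_eq_toFinset_card _ hfin]
  refine hN0 N hN hfin.toFinset fun k hk => ?_
  rw [Set.Finite.mem_toFinset] at hk
  obtain ⟨hk1, hk2⟩ := hk
  refine ⟨hk1, fun h => hk2 ?_⟩
  rw [rel_eq hS]
  have h1 : ∑ n ∈ range (W + 1), 2 ^ (W - n) *
        ((level S n).ncard - Module.finrank ℚ (Submodule.span ℚ (mzv '' level S n))) +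
      ∑ n ∈ range (W + 1), 2 ^ (W - n) * Module.finrank ℚ (WSS (· ∈ S) n) =
      ∑ n ∈ range (W + 1), 2 ^ (W - n) * (adS (· ∈ S) n).card := by
    rw [← sum_add_distrib]
    refine sum_congr rfl fun n _ => ?_
    rw [← mul_add, span_eq hS, level_eq hS, Set.ncard_coe_finset]
    congr 1
    have := finrank_le (S := S) n
    omega
  omega

theorem almost_unique {S : Set (List ℕ)} {V D D' : ℕ} (h : AlmostDimension S V D)
    (h' : AlmostDimension S V D') : D = D' := by
  by_contra hne
  obtain ⟨K, hK⟩ := h 2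
  obtain ⟨K', hK'⟩ := h' 2
  obtain ⟨N0, hN0⟩ := hK 2 one_lt_two
  obtain ⟨N0', hN0'⟩ := hK' 2 one_lt_two
  set N := N0 + N0' + K + K' with hN
  have h1 := hN0 N (by omega)
  have h2 := hN0' N (by omega)
  have h3 : ((Finset.Icc N (2 * N) : Finset ℕ) : Set ℕ) ⊆
      {k : ℕ | (N ≤ k ∧ k ≤ 2 * N) ∧ Module.finrank ℚ (relationSpace S V k (2 ^ k)) ≠ D} ∪
      {k : ℕ | (N ≤ k ∧ k ≤ 2 * N) ∧ Module.finrank ℚ (relationSpace S V k (2 ^ k)) ≠ D'} := by
    intro k hk
    have hk' := Finset.mem_Icc.1 (Finset.mem_coe.1 hk)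
    by_cases h4 : Module.finrank ℚ (relationSpace S V k (2 ^ k)) = D
    · exact Or.inr ⟨hk', fun h5 => hne (h4.symm.trans h5)⟩
    · exact Or.inl ⟨hk', h4⟩
  have hfin : ∀ D : ℕ, {k : ℕ | (N ≤ k ∧ k ≤ 2 * N) ∧
      Module.finrank ℚ (relationSpace S V k (2 ^ k)) ≠ D}.Finite := by
    intro D
    refine (Finset.Icc N (2 * N)).finite_toSet.subset ?_
    rintro s ⟨hs, -⟩
    exact Finset.mem_coe.2 (Finset.mem_Icc.2 hs)
  have h4 := (Set.ncard_le_ncard h3 ((hfin D).union (hfin D'))).trans (Set.ncard_union_le _ _)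
  rw [Set.ncard_coe_finset, Nat.card_Icc] at h4
  omega

/-- the space of relations has finite dimension -/
theorem rel_finite (S : Set (List ℕ)) (hS : PrefixClosed S) {W k : ℕ} (hk : W < k) (H : ℝ) :
    Module.Finite ℚ (relationSpace S W k H) := by
  classical
  set F : Set (List ℕ) := (Pool.Agent.X90.DE.cp k : Set (List ℕ)) with hF
  have h1 : relationSpace S W k H ≤ Finsupp.supported ℚ ℚ F := by
    rw [relationSpace, Submodule.span_le]
    rintro c ⟨hc, -, -⟩
    rw [SetLike.mem_coe, Finsupp.mem_supported]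
    intro w hw
    obtain ⟨q, a, r, h2, h3, h4, h5, h6⟩ := hc w hw
    rw [hF, Finset.mem_coe, Pool.Agent.X90.DE.mem_cp]
    refine ⟨fun t ht => ?_, h5⟩
    rw [h2, List.mem_append, List.mem_cons] at ht
    rcases ht with ht | rfl | ht
    · rcases (adm_iff q).1 (hS.1 q h3) with h7 | h7
      · rw [h7] at ht
        exact absurd ht List.not_mem_nil
      · exact h7.pos t ht
    · omega
    · exact h4 t ht
  have h2 : Module.Finite ℚ (Finsupp.supported ℚ ℚ F) := by
    have : Finite F := (Pool.Agent.X90.DE.cp k).finite_toSet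
    exact Module.Finite.equiv (Finsupp.supportedEquivFinsupp F).symm
  exact Submodule.finiteDimensional_of_le h1

theorem noRel_iff (S : Set (List ℕ)) (hS : PrefixClosed S) {W k : ℕ} (hk : W < k) (H : ℝ) :
    (∃ c, c ≠ 0 ∧ IsRelation S W k H c) ↔ Module.finrank ℚ (relationSpace S W k H) ≠ 0 := by
  have := rel_finite S hS hk H
  rw [Ne, Submodule.finrank_eq_zero]
  constructor
  · rintro ⟨c, hc, hr⟩ h
    have h1 : c ∈ relationSpace S W k H := Submodule.subset_span hr
    rw [h, Submodule.mem_bot] at h1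
    exact hc h1
  · intro h
    by_contra hcon
    push Not at hcon
    apply h
    rw [relationSpace, Submodule.span_eq_bot]
    intro c hc
    by_contra hne
    exact hcon c hne hc

theorem almostNo_iff {S : Set (List ℕ)} (hS : PrefixClosed S) (W : ℕ) :
    AlmostNoRelation S W ↔ AlmostDimension S W 0 := by
  have key : ∀ (C : ℝ) (κ N : ℕ), W < N →
      {k : ℕ | (N ≤ k ∧ k ≤ κ * N) ∧ ∃ c, c ≠ 0 ∧ IsRelation S W k (C ^ k) c} =
      {k : ℕ | (N ≤ k ∧ k ≤ κ * N) ∧ Module.finrank ℚ (relationSpace S W k (C ^ k)) ≠ 0} := by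
    intro C κ N hN
    ext k
    rw [Set.mem_ofPred_eq, Set.mem_ofPred_eq]
    refine and_congr_right fun hk => ?_
    exact noRel_iff S hS (by omega) _
  constructor
  · intro h κ
    obtain ⟨K, hK⟩ := h κ
    refine ⟨K, fun C hC => ?_⟩
    obtain ⟨N0, hN0⟩ := hK C hC
    refine ⟨N0 + W + 1, fun N hN => ?_⟩
    rw [← key C κ N (by omega)]
    exact hN0 N (by omega)
  · intro h κ
    obtain ⟨K, hK⟩ := h κ
    refine ⟨K, fun C hC => ?_⟩
    obtain ⟨N0, hN0⟩ := hK C hC
    refine ⟨N0 + W + 1, fun N hN => ?_⟩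
    rw [key C κ N (by omega)]
    exact hN0 N (by omega)

theorem indep_iff {S : Set (List ℕ)} (hS : PrefixClosed S) (n : ℕ) :
    (LinearIndependent ℚ fun q : level S n => mzv q.1) ↔
      (level S n).ncard = Module.finrank ℚ (Submodule.span ℚ (mzv '' level S n)) := by
  classical
  have hf : Fintype (level S n) := by
    rw [level_eq hS]
    exact Fintype.ofFinite _
  rw [linearIndependent_iff_card_eq_finrank_span, Set.finrank, ← Nat.card_eq_fintype_card,
    Nat.card_coe_set_eq]
  have h1 : Set.range (fun q : level S n => mzv q.1) = mzv '' level S n := by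
    rw [Set.image_eq_range]
  rw [h1]

theorem independent_iff {S : Set (List ℕ)} (hS : PrefixClosed S) (W : ℕ) :
    IndependentUpTo S W ↔ AlmostNoRelation S W := by
  rw [almostNo_iff hS]
  have h1 := almost hS W
  have h2 : IndependentUpTo S W ↔ ∑ n ∈ range (W + 1), 2 ^ (W - n) *
      ((level S n).ncard - Module.finrank ℚ (Submodule.span ℚ (mzv '' level S n))) = 0 := by
    rw [IndependentUpTo, sum_eq_zero_iff]
    refine forall_congr' fun n => ?_
    rw [mem_range, indep_iff hS]
    have h3 : Module.finrank ℚ (Submodule.span ℚ (mzv '' level S n)) ≤ (level S n).ncard := by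
      rw [span_eq hS, level_eq hS, Set.ncard_coe_finset]
      exact finrank_le n
    have h4 : (2 : ℕ) ^ (W - n) ≠ 0 := by positivity
    rw [mul_eq_zero, or_iff_right h4]
    constructor
    · intro h hn
      have := h (by omega)
      omega
    · intro h hn
      have := h (by omega)
      omega
  rw [h2]
  constructor
  · intro h
    rwa [h] at h1
  · intro h
    exact almost_unique h1 h

theorem spans {S : Set (List ℕ)} (hS : PrefixClosed S) {W : ℕ} (h : SpansUpTo S W) :
    SpansUniformly S W := by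
  classical
  intro q r hq hr hW
  have h1 := span_main (S := (· ∈ S)) hS.2 (W := W) (fun p hp hpW => by
    rw [← span_eq hS, ← mzv_eq]
    exact h p.sum hpW p ((adm_iff p).2 hp) rfl) (q, r)
    (Pool.Agent.X90.DE.mem_IF.2 ⟨(adm_iff q).1 hq, hr, hW⟩)
  rw [Finsupp.mem_span_image_iff_linearCombination] at h1
  obtain ⟨c, hc, hc2⟩ := h1
  refine ⟨c, fun x hx => ?_, fun k hk => ?_⟩
  · have h2 : x ∈ IFS (· ∈ S) W := (Finsupp.mem_supported ℚ _).1 hc hx
    obtain ⟨⟨-, h4, h5⟩, h6⟩ := mem_IFS.1 h2
    exact ⟨h6, h4, h5⟩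
  · have h2 := congrFun hc2 (k - W)
    have h3 : ∀ x : List ℕ × List ℕ, x.1.sum + x.2.sum ≤ W → Fs W x (k - W) =
        mzv (x.1 ++ (k - x.1.sum - x.2.sum) :: x.2) := by
      intro x hx
      rw [Fs, if_pos (by omega), mzv_eq, Pool.Agent.X90.DE.wd, Pool.Agent.X90.DE.gw]
      congr 3
      omega
    rw [h3 (q, r) hW, Finsupp.linearCombination_apply, Finsupp.sum, Finset.sum_apply] at h2
    rw [← h2, Finsupp.sum]
    refine sum_congr rfl fun x hx => ?_
    have h4 : x ∈ IFS (· ∈ S) W := (Finsupp.mem_supported ℚ _).1 hc hx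
    rw [Pi.smul_apply, h3 x (mem_IFS.1 h4).1.2.2, Rat.smul_def]

theorem hoffman_closed : PrefixClosed Hoffman := by
  refine ⟨fun q hq => ?_, fun q hq p hp t ht => hq t (hp.subset ht)⟩
  cases q with
  | nil => trivial
  | cons a l =>
    refine ⟨?_, fun t ht => ?_⟩
    · rcases hq a List.mem_cons_self with h | h <;> omega
    · rcases hq t (List.mem_cons_of_mem _ ht) with h | h <;> omega

theorem hoffman_level {n : ℕ} {q : List ℕ} (hq : q ∈ level Hoffman n) (hn : n ≤ 4) :
    (n = 0 ∧ q = []) ∨ (n = 2 ∧ q = [2]) ∨ (n = 3 ∧ q = [3]) ∨ (n = 4 ∧ q = [2, 2]) := by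
  obtain ⟨h1, h2⟩ := hq
  rcases q with _ | ⟨a, _ | ⟨b, _ | ⟨c, l⟩⟩⟩
  · left
    exact ⟨by rw [← h2]; rfl, rfl⟩
  · have ha := h1 a List.mem_cons_self
    simp only [List.sum_cons, List.sum_nil] at h2
    rcases ha with rfl | rfl
    · right; left
      exact ⟨by omega, rfl⟩
    · right; right; left
      exact ⟨by omega, rfl⟩
  · have ha := h1 a List.mem_cons_self
    have hb := h1 b (by simp)
    simp only [List.sum_cons, List.sum_nil] at h2
    have ha2 : a = 2 := by omega
    have hb2 : b = 2 := by omega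
    subst ha2 hb2
    right; right; right
    exact ⟨by omega, rfl⟩
  · have ha := h1 a List.mem_cons_self
    have hb := h1 b (by simp)
    have hc := h1 c (by simp)
    simp only [List.sum_cons] at h2
    omega

theorem independent_four : IndependentUpTo Hoffman 4 := by
  intro n hn
  have h1 : Subsingleton (level Hoffman n) := by
    refine ⟨fun x y => ?_⟩
    ext1
    have hx := hoffman_level x.2 hn
    have hy := hoffman_level y.2 hn
    rcases hx with ⟨h1, h2⟩ | ⟨h1, h2⟩ | ⟨h1, h2⟩ | ⟨h1, h2⟩ <;>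
      rcases hy with ⟨h3, h4⟩ | ⟨h3, h4⟩ | ⟨h3, h4⟩ | ⟨h3, h4⟩ <;>
      first
        | omega
        | rw [h2, h4]
  refine (linearIndependent_subsingleton_index_iff _).2 fun x => ?_
  rw [mzv_eq]
  exact Pool.Agent.X90.DD.mz_ne ((adm_iff _).1 (hoffman_closed.1 _ x.2.1))

theorem spans_four : SpansUpTo Hoffman 4 := by
  have hm : ∀ (n : ℕ) (q : List ℕ), (∀ t ∈ q, t = 2 ∨ t = 3) → q.sum = n →
      mzv q ∈ Submodule.span ℚ (mzv '' level Hoffman n) := fun n q h1 h2 =>
    Submodule.subset_span ⟨q, ⟨h1, h2⟩, rfl⟩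
  intro n hn p hp hpn
  rcases (adm_iff p).1 hp with rfl | hp'
  · exact hm n [] (by simp) hpn
  have h2 := Pool.Agent.X90.DD.two_le_sum hp'
  have h34 : n = 2 ∨ n = 3 ∨ n = 4 := by omega
  rcases h34 with rfl | rfl | rfl
  · rw [Pool.Agent.X90.DD.ad_two hp' hpn]
    exact hm 2 [2] (by simp) rfl
  · have h3 := hm 3 [3] (by simp) rfl
    rcases Pool.Agent.X90.DD.ad_three hp' hpn with rfl | rfl
    · exact h3
    · rw [mzv_eq, Pool.Agent.X90.DD.mz_21, ← mzv_eq]
      exact h3
  · have h4 := hm 4 [2, 2] (by simp) rfl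
    have h5 : mzv [4] ∈ Submodule.span ℚ (mzv '' level Hoffman 4) := by
      have e : mzv [4] = (4 / 3 : ℚ) • mzv [2, 2] := by
        rw [mzv_eq, mzv_eq, Rat.smul_def]
        push_cast
        linarith [Pool.Agent.X90.DD.mz_22]
      rw [e]
      exact Submodule.smul_mem _ _ h4
    rcases Pool.Agent.X90.DD.ad_four hp' hpn with rfl | rfl | rfl | rfl
    · exact h5
    · have e : mzv [3, 1] = (1 / 4 : ℚ) • mzv [4] := by
        rw [mzv_eq, mzv_eq, Rat.smul_def]
        push_cast
        linarith [Pool.Agent.X90.DD.mz_31]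
      rw [e]
      exact Submodule.smul_mem _ _ h5
    · exact h4
    · rw [mzv_eq, Pool.Agent.X90.DD.mz_211, ← mzv_eq]
      exact h5

/-- **Hoffman's basis and the values with one large argument.** For every prefix closed set `S` of
admissible indices and all `W`: (1) for almost all `k` the relations of height `C ^ k` between the
values of weight `k` of the form `(q, a, r)`, `q ∈ S`, `a ≥ k - W`, span a space of dimension
`∑_{n ≤ W} 2 ^ (W - n) (#S_n - dim ⟨ζ(q) : q ∈ S_n⟩)`; (2) the values of `S` of weight `n` are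
independent for all `n ≤ W` if and only if for almost all `k` there is no such relation; (3) if the
values of `S` of weight `n` span `Z_n` for all `n ≤ W`, then they span the values with one large
argument, uniformly in `k`. (4) The set of the Hoffman words is prefix closed, and for it and
`W = 4` both conclusions hold. -/
theorem result :
    (∀ S : Set (List ℕ), PrefixClosed S → ∀ W : ℕ,
      AlmostDimension S W (∑ n ∈ Finset.range (W + 1), 2 ^ (W - n) *
        ((level S n).ncard - Module.finrank ℚ (Submodule.span ℚ (mzv '' level S n)))) ∧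
      (IndependentUpTo S W ↔ AlmostNoRelation S W) ∧
      (SpansUpTo S W → SpansUniformly S W)) ∧
    PrefixClosed Hoffman ∧ AlmostNoRelation Hoffman 4 ∧ SpansUniformly Hoffman 4 :=
  ⟨fun _ hS W => ⟨almost hS W, independent_iff hS W, spans hS⟩, hoffman_closed,
    (independent_iff hoffman_closed 4).1 independent_four, spans hoffman_closed spans_four⟩

end Pool.Agent.Results.MP_301213_nt.HoffmanPrefixBasis
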