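import Mathlib
import Pool.Agent.X142.MZ.Hoff

set_option autoImplicit false

namespace Pool.Agent.Results.MP_301213_nt.HurwitzArguments

open NumberField MvPolynomial

/-- The multiple Hurwitz zeta function
`ζ(s₁,…,s_r; z) = Σ_{0 ≤ k₁ < k₂ < … < k_r} Π (z + k_i)^{-s_i}`, defined by summing over `k₁` last:
`ζ(s₁,…,s_r; z) = Σ_{n ≥ 0} (z+n)^{-s₁} ζ(s₂,…,s_r; z+n+1)`. At `z = 1` it is the multiple zeta value. -/
noncomputable def mhz : List ℕ → ℂ → ℂ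
  | [], _ => 1
  | s :: w, z => ∑' n : ℕ, ((z + n) ^ s)⁻¹ * mhz w (z + n + 1)

/-- Admissible indices: positive entries, the last entry is not `1`; the empty index is admissible. -/
def Adm (s : List ℕ) : Prop := (∀ a ∈ s, 1 ≤ a) ∧ s.getLast? ≠ some 1

/-- `HeightLe F T x`: `x = a / c` with algebraic integers `a`, `c` of `F`, all of whose conjugates are at
most `T` in absolute value. -/
def HeightLe (F : Type) [Field F] [NumberField F] (T : ℝ) (x : F) : Prop :=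
  ∃ a c : 𝓞 F, c ≠ 0 ∧ (∀ φ : F →+* ℂ, ‖φ a‖ ≤ T ∧ ‖φ c‖ ≤ T) ∧ x = a / c

lemma mhz_eq : ∀ (w : List ℕ) (z : ℂ), mhz w z = Pool.Agent.X142.MZ.mhz w z
  | [], _ => rfl
  | s :: w, z => by
    rw [mhz, Pool.Agent.X142.MZ.mhz]
    exact tsum_congr fun n => by rw [mhz_eq w]

/-- Hoffman indices: all entries are `2` or `3`. -/
def Hoff (s : List ℕ) : Prop := ∀ a ∈ s, a = 2 ∨ a = 3

lemma hoff_adm {s : List ℕ} (h : Hoff s) : Pool.Agent.X142.MZ.Adm s := by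
  refine ⟨fun a ha => ?_, fun h1 => ?_⟩
  · rcases h a ha with rfl | rfl <;> omega
  · have h2 := List.mem_of_getLast? h1
    rcases h 1 h2 with h3 | h3 <;> omega

/-- Hoffman elements at almost all arguments: they are independent, and the other values are independent
modulo them. -/
theorem result (H E : Finset (List ℕ)) (hH : ∀ s ∈ H, Hoff s) (hE : ∀ s ∈ E, Adm s ∧ ¬ Hoff s) (L : Set ℂ)
    (hL : IsCompact L) (hL0 : ∀ z ∈ L, ∀ n : ℕ, z ≠ -n) (m g : ℕ) (A ε : ℝ) (hε : 0 < ε) :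
    ∃ B C₁ T₀ : ℝ, ∀ (F : Type) [Field F] [NumberField F], Module.finrank ℚ F ≤ m →
      ∀ (ι : F →+* ℂ) (ξ : Fin g → ℂ) (T : ℝ), T₀ ≤ T →
      ∃ X : Finset F, (X.card : ℝ) ≤ C₁ * T ^ ε ∧
        ∀ x : F, ι x ∈ L → HeightLe F T x → x ∉ X →
          ∀ c : List ℕ → Fin g → 𝓞 F, (∀ s ∈ H ∪ E, ∀ i (φ : F →+* ℂ), ‖φ (c s i)‖ ≤ T ^ A) →
            (∀ s₀ ∈ H, T ^ (-B) * ‖∑ i, ξ i * ι (c s₀ i)‖ ≤
              ‖∑ s ∈ H, (∑ i, ξ i * ι (c s i)) * mhz s (ι x)‖) ∧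
            ∀ s₀ ∈ E, T ^ (-B) * ‖∑ i, ξ i * ι (c s₀ i)‖ ≤
              ‖∑ s ∈ E, (∑ i, ξ i * ι (c s i)) * mhz s (ι x) -
                ∑ s ∈ H, (∑ i, ξ i * ι (c s i)) * mhz s (ι x)‖ := by
  classical
  have hdis : Disjoint H E := Finset.disjoint_left.2 fun s hs hs' => (hE s hs').2 (hH s hs)
  obtain ⟨B, C₁, T₀, h0⟩ := Pool.Agent.X142.MZ.mainX (H ∪ E) (fun s hs => by
    rcases Finset.mem_union.1 hs with h | h
    · exact hoff_adm (hH s h)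
    · exact (hE s h).1) L hL hL0 m g A ε hε
  refine ⟨B, C₁, max T₀ 1, fun F _ _ hF ι ξ T hT => ?_⟩
  obtain ⟨X, hX, h⟩ := h0 F hF ι ξ T ((le_max_left _ _).trans hT)
  refine ⟨X, hX, fun x hxL hx hxX c hc => ?_⟩
  simp only [mhz_eq]
  refine Pool.Agent.X142.MZ.two_families H E hdis ι ξ (fun s => Pool.Agent.X142.MZ.mhz s (ι x))
    ((le_max_right _ _).trans hT) (fun c' hc' => ?_) c fun s hs => hc s ?_
  · have hc'' : ∀ s ∈ H ∪ E, ∀ i (φ : F →+* ℂ), ‖φ (c' s i)‖ ≤ T ^ A := by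
      convert hc' using 2
    have h2 := h x hxL hx hxX c' hc''
    convert h2 using 2
  · convert hs using 2

end Pool.Agent.Results.MP_301213_nt.HurwitzArguments
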