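import Pool.Agent.X27.MZ.Words

/-!
# Hoffman's basis conjecture holds, or fails for a positive proportion

Let `Z_k` be the `ℚ`-span of the multiple zeta values of weight `k`, `d_k` the number of words of weight `k` in the
letters `2, 3`, so `dim Z_k ≤ d_k` (Brown, Goncharov, Terasoma), and equality is the conjecture of Hoffman in weight
`k`. There is no weight `k ≥ 5` for which the conjecture is known.

Theorem.
* If the conjecture fails in weight `m` then `dim Z_{m+k} ≤ d_{m+k} - d_k` for all `k`.
* Hence it fails in all weights `≥ m + 2`, and there by a positive proportion: `dim Z_n ≤ (1 - 2^{-m}) d_n`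
  for `n ≥ m + 2`.
* So if the conjecture holds in weight `n` then it holds in all weights `m ≤ n - 2`; it holds in all weights as soon
  as it holds in infinitely many weights, and even as soon as `limsup dim Z_k / d_k = 1`.

The proof uses the theorem of Brown (2012) on motivic multiple zeta values: there are an integral domain `H` (a
polynomial algebra over `ℚ`), elements `ζ^m(s)` of `H` and a ring homomorphism `per : H → ℝ` with
`per ζ^m(s) = ζ(s)`, such that the weight is multiplicative and the elements of the words in `2, 3` of weight `k` form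
a basis of the part of weight `k`. This is the structure `Motivic` below. If the conjecture fails in weight `m` then
`per` kills some `ξ ≠ 0` of weight `m`, hence the space `ξ H_k` of dimension `d_k`.
-/

set_option autoImplicit false

open Filter Topology

namespace Pool.Agent.Results.MP_301213_nt.PositiveProportion

open Pool.Agent.X27.MZ (Words d)

/-- The multiple zeta value of an index (the first entry belongs to the largest variable). -/
noncomputable def zeta (s : List ℕ) : ℝ :=
  ∑' m : {m : Fin s.length → ℕ // StrictAnti m ∧ ∀ i, 0 < m i},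
    ∏ i, ((m.1 i : ℝ) ^ (s.get i))⁻¹

/-- All entries are positive, and the first one is at least `2`. -/
def Admissible (s : List ℕ) : Prop := (∀ a ∈ s, 1 ≤ a) ∧ ∀ a ∈ s.head?, 2 ≤ a

/-- The span of the multiple zeta values of weight `k`. -/
noncomputable def Z (k : ℕ) : Submodule ℚ ℝ :=
  Submodule.span ℚ {x : ℝ | ∃ s : List ℕ, Admissible s ∧ s.sum = k ∧ x = zeta s}

/-- The conjecture of Hoffman in weight `k`: the family of the `ζ(w)`, `w` a word of weight `k` in the letters `2`
and `3`, is a basis of `Z_k`. -/
def HoffmanAt (k : ℕ) : Prop :=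
  LinearIndependent ℚ (fun l : Words k => zeta l.1) ∧
    Submodule.span ℚ (Set.range fun l : Words k => zeta l.1) = Z k

/-- The motivic multiple zeta values, with the properties found by Brown. -/
structure Motivic where
  /-- the algebra -/
  H : Type
  [ring : CommRing H]
  [dom : IsDomain H]
  [alg : Algebra ℚ H]
  /-- the motivic multiple zeta values -/
  mot : List ℕ → H
  /-- the period map -/
  per : H →ₐ[ℚ] ℝ
  per_mot : ∀ s, Admissible s → per (mot s) = zeta s
  mul_mem : ∀ s t, Admissible s → Admissible t →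
    mot s * mot t ∈ Submodule.span ℚ (mot '' {u | Admissible u ∧ u.sum = s.sum + t.sum})
  indep : ∀ k, LinearIndependent ℚ (fun l : Words k => mot l.1)
  span : ∀ s, Admissible s → mot s ∈ Submodule.span ℚ (Set.range fun l : Words s.sum => mot l.1)

attribute [instance] Motivic.ring Motivic.dom Motivic.alg

theorem admissible_word {k : ℕ} (w : Words k) : Admissible w.1 := by
  constructor
  · intro a ha
    rcases w.2.1 a ha with h | h <;> omega
  · intro a ha
    rcases w.2.1 a (List.mem_of_mem_head? ha) with h | h <;> omega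

namespace Motivic

variable (M : Motivic)

/-- The part of weight `k`. -/
def part (k : ℕ) : Submodule ℚ M.H := Submodule.span ℚ (Set.range fun l : Words k => M.mot l.1)

instance (k : ℕ) : FiniteDimensional ℚ (M.part k) := FiniteDimensional.span_of_finite ℚ (Set.finite_range _)

theorem mem_part {s : List ℕ} (hs : Admissible s) : M.mot s ∈ M.part s.sum := M.span s hs

theorem finrank_part (k : ℕ) : Module.finrank ℚ (M.part k) = d k := by
  have : Fintype (Words k) := Fintype.ofFinite _
  rw [part, finrank_span_eq_card (M.indep k), d, Nat.card_eq_fintype_card]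

theorem mul_mem_part {j k : ℕ} {x y : M.H} (hx : x ∈ M.part j) (hy : y ∈ M.part k) :
    x * y ∈ M.part (j + k) := by
  have h1 : M.part j * M.part k ≤ M.part (j + k) := by
    unfold part
    rw [Submodule.span_mul_span, Submodule.span_le]
    rintro _ ⟨_, ⟨v, rfl⟩, _, ⟨w, rfl⟩, rfl⟩
    have h2 := M.mul_mem v.1 w.1 (admissible_word v) (admissible_word w)
    rw [v.2.2, w.2.2] at h2
    refine (Submodule.span_le.2 ?_) h2
    rintro _ ⟨u, ⟨hu, hu2⟩, rfl⟩
    have h3 := M.mem_part hu
    rw [hu2] at h3
    exact h3
  exact h1 (Submodule.mul_mem_mul hx hy)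

/-- The period map on the part of weight `k`. -/
noncomputable def perk (k : ℕ) : M.part k →ₗ[ℚ] ℝ := M.per.toLinearMap.comp (M.part k).subtype

theorem range_perk (k : ℕ) : LinearMap.range (M.perk k) = Z k := by
  apply le_antisymm
  · rintro _ ⟨x, rfl⟩
    have h1 : M.part k ≤ (Z k).comap M.per.toLinearMap := by
      unfold part
      rw [Submodule.span_le]
      rintro _ ⟨w, rfl⟩
      exact Submodule.subset_span ⟨w.1, admissible_word w, w.2.2, M.per_mot _ (admissible_word w)⟩
    exact h1 x.2
  · unfold Z
    rw [Submodule.span_le]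
    rintro _ ⟨s, hs, rfl, rfl⟩
    exact ⟨⟨M.mot s, M.mem_part hs⟩, M.per_mot s hs⟩

theorem finrank_add (k : ℕ) :
    Module.finrank ℚ (Z k) + Module.finrank ℚ (LinearMap.ker (M.perk k)) = d k := by
  rw [← M.range_perk, LinearMap.finrank_range_add_finrank_ker, M.finrank_part]

/-- The conjecture in weight `k`: the period map is injective there. -/
theorem hoffmanAt_iff (k : ℕ) : HoffmanAt k ↔ Function.Injective (M.perk k) := by
  set b : Words k → M.part k := fun w => ⟨M.mot w.1, Submodule.subset_span ⟨w, rfl⟩⟩ with hb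
  have hbi : LinearIndependent ℚ b := by
    have := M.indep k
    exact LinearIndependent.of_comp (M.part k).subtype this
  have hbs : ⊤ ≤ Submodule.span ℚ (Set.range b) := by
    rintro ⟨x, hx⟩ -
    have h1 : x ∈ (Submodule.span ℚ (Set.range b)).map (M.part k).subtype := by
      rw [Submodule.map_span, ← Set.range_comp]
      exact hx
    obtain ⟨y, hy, h2⟩ := h1
    have : y = ⟨x, hx⟩ := Subtype.ext h2
    rwa [this] at hy
  have hval : ∀ w : Words k, M.perk k (b w) = zeta w.1 := fun w => M.per_mot _ (admissible_word w)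
  constructor
  · rintro ⟨h1, -⟩
    rw [← LinearMap.ker_eq_bot, Submodule.eq_bot_iff]
    intro x hx
    let B := Module.Basis.mk hbi hbs
    have h2 : Finsupp.linearCombination ℚ (fun w : Words k => zeta w.1) (B.repr x) = 0 := by
      have h3 : M.perk k x = 0 := hx
      rw [← B.linearCombination_repr x, Finsupp.apply_linearCombination] at h3
      have h4 : (M.perk k ∘ B) = fun w : Words k => zeta w.1 := by
        funext w
        simp only [Function.comp_apply, B, Module.Basis.coe_mk]
        exact hval w
      rw [h4] at h3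
      exact h3
    have h5 := linearIndependent_iff.1 h1 _ h2
    have h6 := B.linearCombination_repr x
    rw [h5, map_zero] at h6
    exact h6.symm
  · intro h
    constructor
    · have h1 := hbi.map' (M.perk k) (LinearMap.ker_eq_bot.2 h)
      have : (M.perk k ∘ b) = fun w : Words k => zeta w.1 := by
        funext w; exact hval w
      rwa [this] at h1
    · rw [← M.range_perk, LinearMap.range_eq_map, ← (top_le_iff.1 hbs), Submodule.map_span,
        ← Set.range_comp]
      congr 2
      funext w
      exact (hval w).symm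

include M in
theorem hoffmanAt_iff_dim (k : ℕ) : HoffmanAt k ↔ Module.finrank ℚ (Z k) = d k := by
  rw [M.hoffmanAt_iff, ← LinearMap.ker_eq_bot, ← Submodule.finrank_eq_zero (R := ℚ)]
  have := M.finrank_add k
  omega

include M in
/-- A failure in weight `m` kills a space of dimension `d_k` in weight `m + k`. -/
theorem amplify {m : ℕ} (hm : ¬ HoffmanAt m) (k : ℕ) : Module.finrank ℚ (Z (m + k)) + d k ≤ d (m + k) := by
  rw [M.hoffmanAt_iff, ← LinearMap.ker_eq_bot, Submodule.eq_bot_iff] at hm
  push Not at hm
  obtain ⟨ξ, hξ, hξ0⟩ := hm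
  have hξ0' : ξ.1 ≠ 0 := fun h => hξ0 (Subtype.ext h)
  have hper : M.per ξ.1 = 0 := hξ
  -- multiplication by `ξ`
  let φ : M.part k →ₗ[ℚ] LinearMap.ker (M.perk (m + k)) :=
    { toFun := fun x => ⟨⟨ξ.1 * x.1, M.mul_mem_part ξ.2 x.2⟩, by
        rw [LinearMap.mem_ker]
        show M.per (ξ.1 * x.1) = 0
        rw [map_mul, hper, zero_mul]⟩
      map_add' := fun x y => by
        apply Subtype.ext; apply Subtype.ext
        show ξ.1 * (x.1 + y.1) = ξ.1 * x.1 + ξ.1 * y.1
        rw [mul_add]
      map_smul' := fun c x => by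
        apply Subtype.ext; apply Subtype.ext
        show ξ.1 * (c • x.1) = c • (ξ.1 * x.1)
        rw [mul_smul_comm] }
  have hφ : Function.Injective φ := by
    intro x y h
    have h1 : ξ.1 * x.1 = ξ.1 * y.1 := congrArg (fun z => z.1.1) h
    exact Subtype.ext (mul_left_cancel₀ hξ0' h1)
  have h1 := LinearMap.finrank_le_finrank_of_injective hφ
  rw [M.finrank_part] at h1
  have h2 := M.finrank_add (m + k)
  omega

end Motivic

/-- **Hoffman's basis conjecture holds, or fails for a positive proportion.** -/
theorem result (M : Motivic) :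
    (∀ k, HoffmanAt k ↔ Module.finrank ℚ (Z k) = d k) ∧
    (∀ m k, ¬ HoffmanAt m → Module.finrank ℚ (Z (m + k)) + d k ≤ d (m + k)) ∧
    (∀ m n, ¬ HoffmanAt m → m + 2 ≤ n → ¬ HoffmanAt n ∧
      (Module.finrank ℚ (Z n) : ℝ) ≤ (1 - 1 / 2 ^ m) * d n) ∧
    (∀ m n, HoffmanAt n → m + 2 ≤ n → HoffmanAt m) ∧
    [∀ k, HoffmanAt k,
      ∀ n, ∃ k, n ≤ k ∧ HoffmanAt k,
      ∀ ε : ℝ, 0 < ε → ∀ n, ∃ k, n ≤ k ∧ (1 - ε) * d k ≤ (Module.finrank ℚ (Z k) : ℝ)].TFAE := by
  have key : ∀ m n, ¬ HoffmanAt m → m + 2 ≤ n → ¬ HoffmanAt n ∧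
      (Module.finrank ℚ (Z n) : ℝ) ≤ (1 - 1 / 2 ^ m) * d n := by
    intro m n hm hn
    obtain ⟨k, rfl⟩ : ∃ k, n = m + k := ⟨n - m, by omega⟩
    have hk : 2 ≤ k := by omega
    have h1 := M.amplify hm k
    have h2 := Pool.Agent.X27.MZ.d_add_le m hk
    have h3 := Pool.Agent.X27.MZ.d_pos (k := k) (by omega)
    constructor
    · rw [M.hoffmanAt_iff_dim]
      omega
    · have h4 : (Module.finrank ℚ (Z (m + k)) : ℝ) + d k ≤ d (m + k) := by exact_mod_cast h1
      have h5 : (d (m + k) : ℝ) ≤ 2 ^ m * d k := by exact_mod_cast h2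
      have h6 : 1 / 2 ^ m * (d (m + k) : ℝ) ≤ d k := by
        rw [one_div, inv_mul_le_iff₀ (by positivity)]
        exact h5
      linarith
  have key2 : ∀ m n, HoffmanAt n → m + 2 ≤ n → HoffmanAt m := by
    intro m n hn hmn
    by_contra h
    exact (key m n h hmn).1 hn
  refine ⟨M.hoffmanAt_iff_dim, fun m k h => M.amplify h k, key, key2, ?_⟩
  tfae_have 1 → 2 := fun h n => ⟨n, le_rfl, h n⟩
  tfae_have 2 → 3 := by
    intro h ε hε n
    obtain ⟨k, hk, h1⟩ := h n
    refine ⟨k, hk, ?_⟩
    rw [(M.hoffmanAt_iff_dim k).1 h1]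
    have : (0 : ℝ) ≤ d k := Nat.cast_nonneg _
    nlinarith
  tfae_have 3 → 1 := by
    intro h m
    by_contra hm
    obtain ⟨k, hk, h1⟩ := h (1 / 2 ^ (m + 1)) (by positivity) (m + 2)
    have h2 := (key m k hm hk).2
    have h3 : (0 : ℝ) < d k := by
      exact_mod_cast Pool.Agent.X27.MZ.d_pos (k := k) (by omega)
    have h4 : (1 : ℝ) / 2 ^ (m + 1) < 1 / 2 ^ m := by
      apply one_div_lt_one_div_of_lt (by positivity)
      exact pow_lt_pow_right₀ (by norm_num) (by omega)
    nlinarith
  tfae_finish

end Pool.Agent.Results.MP_301213_nt.PositiveProportion
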