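import Pool.Agent.Results.MP_301213_nt.HoffmanPrefixBasis
import Pool.Agent.X174.WinDim

/-!
# Hoffman's basis and the multiple zeta values with one large argument, for ALL weights in windows around thin sequences

Fix `W` and a set `S` of indices which contains the initial segments of its elements, for example the words in the letters
`2, 3`, and consider the multiple zeta values of weight `k` of the form `ζ(q, a, r)` with `q` in `S` and `a ≥ k - W`.
`InWindows S W D` is the statement: for every sequence `v ≥ 1` of exponent of convergence at most `τ` (for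
`v_i = (i + 1) ^ a` this is `1 / a`, for `v_i = b ^ i` it is `0`) and every `ρ < 1` there is a set `E ⊂ ℝ` of Hausdorff
dimension at most `τ / (1 - ρ)` such that for each `α > 0` outside `E` and each `C > 1`, for all but finitely many `i`: for
ALL `k` with `|k - α v_i| ≤ v_i ^ ρ` the relations between these values with integer coefficients of absolute value at most
`C ^ k` span a space of dimension `D`. `NoRelationInWindows S W`: in the same situation there is no relation except `0`.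

(1) `InWindows S W D` holds for `D = ∑_{n ≤ W} 2 ^ (W - n) (#S_n - dim ⟨ζ(q) : q ∈ S_n⟩)`. (2) The values `ζ(q)`, `q ∈ S` of
weight `n`, are linearly independent for all `n ≤ W` if and only if `NoRelationInWindows S W`. (3) If the values of `S` span
in the weights `n ≤ W`, they span the values with one large argument, uniformly in `k` (this part is unchanged). (4) For the
set of the Hoffman words and `W = 4`: `NoRelationInWindows` and the spanning hold.

So Q1 in the weights at most `W` is equivalent to the absence of relations of height `C ^ k` for ALL weights `k` in the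
windows. The starting point is the result `HoffmanPrefixBasis` of helper90.
-/

set_option autoImplicit false

namespace Pool.Agent.Results.MP_301213_nt.WeightsInWindows

open HoffmanPrefixBasis (mzv Admissible PrefixClosed Hoffman level LargeWords IsRelation relationSpace AlmostDimension
  AlmostNoRelation IndependentUpTo SpansUpTo SpansUniformly)

/-- the exponent of convergence of the sequence `v` is at most `τ` -/
def ExpLe (v : ℕ → ℝ) (τ : ℝ) : Prop := ∀ t : ℝ, τ < t → Summable (fun n : ℕ => (v n) ^ (-t))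

/-- for all sequences `v ≥ 1` of exponent of convergence at most `τ` and all `ρ < 1` there is a set `E ⊂ ℝ` of Hausdorff
dimension at most `τ / (1 - ρ)` such that for all `α > 0` outside `E` and all `C > 1`, for all but finitely many `i`, for ALL
`k` with `|k - α v_i| ≤ v_i ^ ρ` the relations with coefficients of absolute value at most `C ^ k` between the values of
`LargeWords S W k` span a space of dimension `D` -/
def InWindows (S : Set (List ℕ)) (W D : ℕ) : Prop :=
  ∀ (v : ℕ → ℝ) (τ ρ : ℝ), (∀ i, 1 ≤ v i) → 0 ≤ τ → ExpLe v τ → ρ < 1 →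
    ∃ E : Set ℝ, dimH E ≤ ENNReal.ofReal (τ / (1 - ρ)) ∧ ∀ α : ℝ, 0 < α → α ∉ E → ∀ C : ℝ, 1 < C →
      ∃ i₀ : ℕ, ∀ i : ℕ, i₀ ≤ i → ∀ k : ℕ, |(k : ℝ) - α * v i| ≤ (v i) ^ ρ →
        Module.finrank ℚ (relationSpace S W k (C ^ k)) = D

/-- for all sequences `v ≥ 1` of exponent of convergence at most `τ` and all `ρ < 1` there is a set `E ⊂ ℝ` of Hausdorff
dimension at most `τ / (1 - ρ)` such that for all `α > 0` outside `E` and all `C > 1`, for all but finitely many `i`, for ALL
`k` with `|k - α v_i| ≤ v_i ^ ρ` there is no nonzero relation with coefficients of absolute value at most `C ^ k` between the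
values of `LargeWords S W k` -/
def NoRelationInWindows (S : Set (List ℕ)) (W : ℕ) : Prop :=
  ∀ (v : ℕ → ℝ) (τ ρ : ℝ), (∀ i, 1 ≤ v i) → 0 ≤ τ → ExpLe v τ → ρ < 1 →
    ∃ E : Set ℝ, dimH E ≤ ENNReal.ofReal (τ / (1 - ρ)) ∧ ∀ α : ℝ, 0 < α → α ∉ E → ∀ C : ℝ, 1 < C →
      ∃ i₀ : ℕ, ∀ i : ℕ, i₀ ≤ i → ∀ k : ℕ, |(k : ℝ) - α * v i| ≤ (v i) ^ ρ →
        ∀ c : List ℕ →₀ ℚ, IsRelation S W k (C ^ k) c → c = 0

theorem entries_pos : ∀ w : List ℕ, Admissible w → ∀ t ∈ w, 1 ≤ t
  | [], _, t, ht => absurd ht List.not_mem_nil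
  | s :: l, h, t, ht => by
    rcases List.mem_cons.1 ht with rfl | ht
    · exact le_trans (by norm_num) h.1
    · exact h.2 t ht

theorem supp {S : Set (List ℕ)} (hS : PrefixClosed S) (W k : ℕ) (hk : W < k) (H : ℝ) :
    relationSpace S W k H ≤ Finsupp.supported ℚ ℚ {w : List ℕ | (∀ t ∈ w, 1 ≤ t) ∧ w.sum ≤ k} := by
  refine Submodule.span_le.2 ?_
  rintro c ⟨h1, -, -⟩
  refine (Finsupp.mem_supported ℚ c).2 fun w hw => ?_
  obtain ⟨q, a, r, rfl, h4, h5, h6, h7⟩ := h1 w hw
  refine ⟨fun t ht => ?_, h6.le⟩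
  rcases List.mem_append.1 ht with ht | ht
  · exact entries_pos q (hS.1 q h4) t ht
  · rcases List.mem_cons.1 ht with rfl | ht
    · omega
    · exact h5 t ht

theorem mono {S : Set (List ℕ)} (hS : PrefixClosed S) (W k : ℕ) (hk : W < k) {H H' : ℝ} (hH : H ≤ H') :
    Module.finrank ℚ (relationSpace S W k H) ≤ Module.finrank ℚ (relationSpace S W k H') := by
  refine Pool.Agent.X174.finrank_mono_supported (Pool.Agent.X174.finite_lists k) ?_ (supp hS W k hk H')
  refine Submodule.span_mono ?_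
  rintro c ⟨h1, h2, h3⟩
  refine ⟨h1, fun w => ?_, h3⟩
  obtain ⟨z, hz1, hz2⟩ := h2 w
  exact ⟨z, hz1, hz2.trans hH⟩

/-- the dimension of the space of relations; for the finitely many weights `k ≤ W` it is replaced by `0` -/
noncomputable def rk (S : Set (List ℕ)) (W : ℕ) (c : ℝ) (k : ℕ) : ℤ :=
  if W < k then (Module.finrank ℚ (relationSpace S W k (c ^ k)) : ℤ) else 0

theorem conv {S : Set (List ℕ)} (hS : PrefixClosed S) (W : ℕ) (D : ℤ) (c₁ c c₂ : ℝ) (k : ℕ) (h1 : 1 < c₁)
    (h2 : c₁ ≤ c) (h3 : c ≤ c₂) (h4 : rk S W c₁ k = D) (h5 : rk S W c₂ k = D) : rk S W c k = D := by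
  by_cases hk : W < k
  · rw [rk, if_pos hk] at h4 h5 ⊢
    have h6 := mono hS W k hk (pow_le_pow_left₀ (by linarith) h2 k : c₁ ^ k ≤ c ^ k)
    have h7 := mono hS W k hk (pow_le_pow_left₀ (by linarith) h3 k : c ^ k ≤ c₂ ^ k)
    omega
  · rw [rk, if_neg hk] at h4 ⊢
    exact h4

theorem alm_iff (S : Set (List ℕ)) (W D : ℕ) : AlmostDimension S W D ↔ Pool.Agent.X174.Alm (rk S W) D := by
  unfold AlmostDimension Pool.Agent.X174.Alm
  refine forall_congr' fun κ => exists_congr fun K => forall₂_congr fun C hC => ?_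
  constructor
  · rintro ⟨N0, hN0⟩
    refine ⟨N0 + W + 1, fun N hN => ?_⟩
    have h1 := hN0 N (by omega)
    have h2 : {k : ℕ | (N ≤ k ∧ k ≤ κ * N) ∧ rk S W C k ≠ (D : ℤ)} =
        {k : ℕ | (N ≤ k ∧ k ≤ κ * N) ∧ Module.finrank ℚ (relationSpace S W k (C ^ k)) ≠ D} := by
      ext k
      simp only [Set.mem_ofPred_eq]
      refine and_congr_right fun hk => ?_
      rw [rk, if_pos (by omega), ne_eq, Nat.cast_inj]
    rw [h2]
    exact h1
  · rintro ⟨N0, hN0⟩
    refine ⟨N0 + W + 1, fun N hN => ?_⟩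
    have h1 := hN0 N (by omega)
    have h2 : {k : ℕ | (N ≤ k ∧ k ≤ κ * N) ∧ rk S W C k ≠ (D : ℤ)} =
        {k : ℕ | (N ≤ k ∧ k ≤ κ * N) ∧ Module.finrank ℚ (relationSpace S W k (C ^ k)) ≠ D} := by
      ext k
      simp only [Set.mem_ofPred_eq]
      refine and_congr_right fun hk => ?_
      rw [rk, if_pos (by omega), ne_eq, Nat.cast_inj]
    rw [← h2]
    exact h1

/-- in the windows around `α v_i` all `k` are large for large `i` -/
theorem large {v : ℕ → ℝ} {τ ρ : ℝ} (hv : ∀ i, 1 ≤ v i) (hτ : 0 ≤ τ) (hE : ExpLe v τ) (hρ : ρ < 1) {α : ℝ} (hα : 0 < α)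
    (W : ℕ) : ∃ i₀ : ℕ, ∀ i : ℕ, i₀ ≤ i → ∀ k : ℕ, |(k : ℝ) - α * v i| ≤ (v i) ^ ρ → W < k := by
  have hvp : ∀ n, 0 < v n := fun n => lt_of_lt_of_le one_pos (hv n)
  have htv : Filter.Tendsto v Filter.atTop Filter.atTop := Pool.Agent.Y854.GM.tendsto_of_expLe hvp hτ hE
  have ht : Filter.Tendsto (fun i => (v i) ^ (1 - ρ)) Filter.atTop Filter.atTop :=
    (tendsto_rpow_atTop (by linarith)).comp htv
  obtain ⟨i₁, hi₁⟩ := (ht.eventually_ge_atTop (2 / α)).exists_forall_of_atTop
  obtain ⟨i₂, hi₂⟩ := (htv.eventually_ge_atTop (2 * (W + 1) / α)).exists_forall_of_atTop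
  refine ⟨max i₁ i₂, fun i hi k hk => ?_⟩
  have h1 := hi₁ i ((le_max_left _ _).trans hi)
  have h2 := hi₂ i ((le_max_right _ _).trans hi)
  have hvi := hvp i
  rw [div_le_iff₀ hα] at h1 h2
  have h3 : (v i) ^ ρ * (v i) ^ (1 - ρ) = v i := by
    rw [← Real.rpow_add hvi]
    simp
  have h4 : 0 < (v i) ^ ρ := Real.rpow_pos_of_pos hvi ρ
  have h5 : 2 * (v i) ^ ρ ≤ α * v i := by
    calc 2 * (v i) ^ ρ ≤ ((v i) ^ (1 - ρ) * α) * (v i) ^ ρ := mul_le_mul_of_nonneg_right h1 h4.le
      _ = α * ((v i) ^ ρ * (v i) ^ (1 - ρ)) := by ring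
      _ = α * v i := by rw [h3]
  have h6 := (abs_le.1 hk).1
  have h7 : ((W : ℝ) + 1) ≤ k := by nlinarith
  have h8 : W + 1 ≤ k := by exact_mod_cast h7
  omega

theorem inW_iff (S : Set (List ℕ)) (W D : ℕ) : InWindows S W D ↔ Pool.Agent.X174.InW (rk S W) D := by
  unfold InWindows Pool.Agent.X174.InW
  constructor
  · intro h v τ ρ hv hτ hE hρ
    obtain ⟨E, h1, h2⟩ := h v τ ρ hv hτ hE hρ
    refine ⟨E, h1, fun α hα hαE C hC => ?_⟩
    obtain ⟨i₀, hi₀⟩ := h2 α hα hαE C hC
    obtain ⟨i₁, hi₁⟩ := large hv hτ hE hρ hα W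
    refine ⟨max i₀ i₁, fun i hi k hk => ?_⟩
    rw [rk, if_pos (hi₁ i ((le_max_right _ _).trans hi) k hk), hi₀ i ((le_max_left _ _).trans hi) k hk]
  · intro h v τ ρ hv hτ hE hρ
    obtain ⟨E, h1, h2⟩ := h v τ ρ hv hτ hE hρ
    refine ⟨E, h1, fun α hα hαE C hC => ?_⟩
    obtain ⟨i₀, hi₀⟩ := h2 α hα hαE C hC
    obtain ⟨i₁, hi₁⟩ := large hv hτ hE hρ hα W
    refine ⟨max i₀ i₁, fun i hi k hk => ?_⟩
    have h3 := hi₀ i ((le_max_left _ _).trans hi) k hk
    rw [rk, if_pos (hi₁ i ((le_max_right _ _).trans hi) k hk)] at h3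
    exact_mod_cast h3

theorem almost_iff {S : Set (List ℕ)} (hS : PrefixClosed S) (W D : ℕ) : AlmostDimension S W D ↔ InWindows S W D := by
  rw [alm_iff, inW_iff]
  exact Pool.Agent.X174.alm_iff_inW (conv hS W) ((alm_iff S W _).1 (HoffmanPrefixBasis.result.1 S hS W).1) D

theorem finrank_zero_iff {S : Set (List ℕ)} (hS : PrefixClosed S) (W k : ℕ) (hk : W < k) (H : ℝ) :
    Module.finrank ℚ (relationSpace S W k H) = 0 ↔ ∀ c : List ℕ →₀ ℚ, IsRelation S W k H c → c = 0 := by
  have hfin : Finite {w : List ℕ | (∀ t ∈ w, 1 ≤ t) ∧ w.sum ≤ k} := Pool.Agent.X174.finite_lists k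
  have h1 : Module.Finite ℚ (Finsupp.supported ℚ ℚ {w : List ℕ | (∀ t ∈ w, 1 ≤ t) ∧ w.sum ≤ k}) :=
    Module.Finite.equiv (Finsupp.supportedEquivFinsupp (M := ℚ) (R := ℚ) _).symm
  have h2 : FiniteDimensional ℚ (relationSpace S W k H) := Submodule.finiteDimensional_of_le (supp hS W k hk H)
  rw [Submodule.finrank_eq_zero]
  constructor
  · intro h c hc
    have h3 : c ∈ relationSpace S W k H := Submodule.subset_span hc
    rw [h] at h3
    exact (Submodule.mem_bot ℚ).1 h3
  · intro h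
    refine le_bot_iff.1 (Submodule.span_le.2 fun c hc => ?_)
    exact (Submodule.mem_bot ℚ).2 (h c hc)

theorem noRelation_iff {S : Set (List ℕ)} (hS : PrefixClosed S) (W : ℕ) : NoRelationInWindows S W ↔ InWindows S W 0 := by
  unfold InWindows NoRelationInWindows
  constructor
  · intro h v τ ρ hv hτ hE hρ
    obtain ⟨E, h1, h2⟩ := h v τ ρ hv hτ hE hρ
    refine ⟨E, h1, fun α hα hαE C hC => ?_⟩
    obtain ⟨i₀, hi₀⟩ := h2 α hα hαE C hC
    obtain ⟨i₁, hi₁⟩ := large hv hτ hE hρ hα W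
    refine ⟨max i₀ i₁, fun i hi k hk => ?_⟩
    rw [finrank_zero_iff hS W k (hi₁ i ((le_max_right _ _).trans hi) k hk)]
    exact hi₀ i ((le_max_left _ _).trans hi) k hk
  · intro h v τ ρ hv hτ hE hρ
    obtain ⟨E, h1, h2⟩ := h v τ ρ hv hτ hE hρ
    refine ⟨E, h1, fun α hα hαE C hC => ?_⟩
    obtain ⟨i₀, hi₀⟩ := h2 α hα hαE C hC
    obtain ⟨i₁, hi₁⟩ := large hv hτ hE hρ hα W
    refine ⟨max i₀ i₁, fun i hi k hk => ?_⟩
    have h3 := hi₀ i ((le_max_left _ _).trans hi) k hk
    rw [finrank_zero_iff hS W k (hi₁ i ((le_max_right _ _).trans hi) k hk)] at h3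
    exact h3

theorem almostNo_iff {S : Set (List ℕ)} (hS : PrefixClosed S) (W : ℕ) : AlmostNoRelation S W ↔ AlmostDimension S W 0 := by
  unfold AlmostNoRelation AlmostDimension
  refine forall_congr' fun κ => exists_congr fun K => forall₂_congr fun C hC => ?_
  have h2 : ∀ N, W + 1 ≤ N → {k : ℕ | (N ≤ k ∧ k ≤ κ * N) ∧ ∃ c, c ≠ 0 ∧ IsRelation S W k (C ^ k) c} =
        {k : ℕ | (N ≤ k ∧ k ≤ κ * N) ∧ Module.finrank ℚ (relationSpace S W k (C ^ k)) ≠ 0} := by
    intro N hN
    ext k
    simp only [Set.mem_ofPred_eq]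
    refine and_congr_right fun hk => ?_
    rw [ne_eq, finrank_zero_iff hS W k (by omega)]
    constructor
    · rintro ⟨c, h1, h2⟩ h3
      exact h1 (h3 c h2)
    · intro h
      by_contra hcon
      push Not at hcon
      exact h fun c hc => by
        by_contra hne
        exact hcon c hne hc
  constructor
  · rintro ⟨N0, hN0⟩
    refine ⟨N0 + W + 1, fun N hN => ?_⟩
    rw [← h2 N (by omega)]
    exact hN0 N (by omega)
  · rintro ⟨N0, hN0⟩
    refine ⟨N0 + W + 1, fun N hN => ?_⟩
    rw [h2 N (by omega)]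
    exact hN0 N (by omega)

/-- **Hoffman's basis and the values with one large argument, for all weights in windows.** For every prefix closed set `S` of
admissible indices and all `W`: (1) for ALL `k` in windows around `α v_i` the relations of height `C ^ k` between the values
of weight `k` of the form `(q, a, r)`, `q ∈ S`, `a ≥ k - W`, span a space of dimension
`∑_{n ≤ W} 2 ^ (W - n) (#S_n - dim ⟨ζ(q) : q ∈ S_n⟩)`; (2) the values of `S` of weight `n` are independent for all `n ≤ W`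
if and only if for ALL `k` in windows there is no such relation; (3) if the values of `S` of weight `n` span `Z_n` for all
`n ≤ W`, then they span the values with one large argument, uniformly in `k`. (4) The set of the Hoffman words is prefix
closed, and for it and `W = 4` both conclusions hold. The sequences `v_i = (i + 1) ^ a` and `v_i = b ^ i` have exponent of
convergence at most `1 / a` and `0`. -/
theorem result :
    (∀ S : Set (List ℕ), PrefixClosed S → ∀ W : ℕ,
      InWindows S W (∑ n ∈ Finset.range (W + 1), 2 ^ (W - n) *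
        ((level S n).ncard - Module.finrank ℚ (Submodule.span ℚ (mzv '' level S n)))) ∧
      (IndependentUpTo S W ↔ NoRelationInWindows S W) ∧
      (SpansUpTo S W → SpansUniformly S W)) ∧
    PrefixClosed Hoffman ∧ NoRelationInWindows Hoffman 4 ∧ SpansUniformly Hoffman 4 ∧
    (∀ a : ℝ, 0 < a → ExpLe (fun n : ℕ => ((n : ℝ) + 1) ^ a) (1 / a)) ∧
    (∀ b : ℝ, 1 < b → ExpLe (fun n : ℕ => b ^ n) 0) := by
  obtain ⟨h1, h2, h3, h4⟩ := HoffmanPrefixBasis.result
  refine ⟨fun S hS W => ⟨(almost_iff hS _ _).1 (h1 S hS W).1, ?_, (h1 S hS W).2.2⟩, h2,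
    (noRelation_iff h2 4).2 ((almost_iff h2 _ _).1 ((almostNo_iff h2 4).1 h3)), h4,
    fun κ hκ => Pool.Agent.Y854.GM.expLe_pow κ hκ, fun b hb => Pool.Agent.Y854.GM.expLe_geom b hb⟩
  rw [(h1 S hS W).2.1, almostNo_iff hS, almost_iff hS, noRelation_iff hS]

end Pool.Agent.Results.MP_301213_nt.WeightsInWindows
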